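import Pool.Agent.TH302.Tarry.Check

set_option autoImplicit false

/-!
# The four computations
-/

namespace Pool.Agent.TH302.Tarry

theorem chk6 : chk [2, 3, 4, 5, 0] = true := by decide +kernel

theorem chk42 : chk [2, 3, 0, 5, 4] = true := by decide +kernel

theorem chk33 : chk [2, 0, 4, 5, 3] = true := by decide +kernel

theorem chk222 : chk [0, 3, 2, 5, 4] = true := by decide +kernel

end Pool.Agent.TH302.Tarry
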