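import Pool.Agent.TH302.Tarry.Sound
import Pool.Agent.TH302.Tarry.Run
import Mathlib.GroupTheory.Perm.Cycle.Concrete
import Mathlib.GroupTheory.Perm.Cycle.Type

set_option autoImplicit false

/-!
# There is no pair of orthogonal latin squares of order six
-/

namespace Pool.Agent.TH302.Tarry

open Function Equiv Equiv.Perm

/-- multisets of numbers at least two with sum six -/
theorem multiset_six (m : Multiset ℕ) (h2 : ∀ x ∈ m, 2 ≤ x) (h6 : m.sum = 6) :
    m = {6} ∨ m = {4, 2} ∨ m = {3, 3} ∨ m = {2, 2, 2} := by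
  have hc : m.card * 2 ≤ 6 := by
    have := Multiset.card_nsmul_le_sum h2
    rw [h6, smul_eq_mul] at this
    exact this
  have hc' : m.card ≤ 3 := by omega
  interval_cases hcard : m.card
  · rw [Multiset.card_eq_zero] at hcard
    subst hcard
    simp at h6
  · obtain ⟨a, rfl⟩ := Multiset.card_eq_one.1 hcard
    left
    simp at h6
    rw [h6]
  · obtain ⟨a, b, rfl⟩ := Multiset.card_eq_two.1 hcard
    have ha := h2 a (by simp)
    have hb := h2 b (by simp)
    simp only [Multiset.insert_eq_cons, Multiset.sum_cons, Multiset.sum_singleton] at h6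
    have : (a = 4 ∧ b = 2) ∨ (a = 2 ∧ b = 4) ∨ (a = 3 ∧ b = 3) := by omega
    rcases this with ⟨rfl, rfl⟩ | ⟨rfl, rfl⟩ | ⟨rfl, rfl⟩
    · right; left; rfl
    · right; left; exact Multiset.pair_comm _ _
    · right; right; left; rfl
  · obtain ⟨a, b, c, rfl⟩ := Multiset.card_eq_three.1 hcard
    have ha := h2 a (by simp)
    have hb := h2 b (by simp)
    have hc := h2 c (by simp)
    simp only [Multiset.insert_eq_cons, Multiset.sum_cons, Multiset.sum_singleton] at h6
    have : a = 2 ∧ b = 2 ∧ c = 2 := by omega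
    obtain ⟨rfl, rfl, rfl⟩ := this
    right; right; right; rfl

/-- the four canonical derangements -/
def can : Fin 4 → Perm (Fin 6) :=
  ![c[(0 : Fin 6), 1, 2, 3, 4, 5], c[(0 : Fin 6), 1, 2, 3] * c[4, 5],
    c[(0 : Fin 6), 1, 2] * c[3, 4, 5], c[(0 : Fin 6), 1] * c[2, 3] * c[4, 5]]

theorem can_type : (can 0).cycleType = {6} ∧ (can 1).cycleType = {4, 2} ∧
    (can 2).cycleType = {3, 3} ∧ (can 3).cycleType = {2, 2, 2} := by
  refine ⟨?_, ?_, ?_, ?_⟩ <;> decide +kernel

theorem exists_conj (τ : Perm (Fin 6)) (h : ∀ x, τ x ≠ x) :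
    ∃ (j : Fin 4) (π : Perm (Fin 6)), π * τ * π⁻¹ = can j := by
  have hs : τ.cycleType.sum = 6 := by
    rw [sum_cycleType]
    have : τ.support = Finset.univ := by
      ext x
      simp [h x]
    rw [this]; rfl
  obtain ⟨t0, t1, t2, t3⟩ := can_type
  rcases multiset_six τ.cycleType (fun x hx => two_le_of_mem_cycleType hx) hs with e | e | e | e
  · exact ⟨0, isConj_iff.1 (isConj_iff_cycleType_eq.2 (e.trans t0.symm))⟩
  · exact ⟨1, isConj_iff.1 (isConj_iff_cycleType_eq.2 (e.trans t1.symm))⟩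
  · exact ⟨2, isConj_iff.1 (isConj_iff_cycleType_eq.2 (e.trans t2.symm))⟩
  · exact ⟨3, isConj_iff.1 (isConj_iff_cycleType_eq.2 (e.trans t3.symm))⟩

/-- the element of `Fin 6` -/
def fi (i : ℕ) : Fin 6 := ⟨i % 6, Nat.mod_lt _ (by norm_num)⟩

theorem fi_inj {i j : ℕ} (hi : i < 6) (hj : j < 6) (h : fi i = fi j) : i = j := by
  have := congrArg Fin.val h
  simp only [fi, Nat.mod_eq_of_lt hi, Nat.mod_eq_of_lt hj] at this
  exact this

theorem fi_val (x : Fin 6) : fi x.val = x := Fin.ext (Nat.mod_eq_of_lt x.2)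

theorem val_fi {i : ℕ} (hi : i < 6) : (fi i).val = i := Nat.mod_eq_of_lt hi

theorem can_chk (j : Fin 4) : chk [(can j 1).val, (can j 2).val, (can j 3).val, (can j 4).val,
    (can j 5).val] = true := by
  have e0 : (can 0 1).val = 2 ∧ (can 0 2).val = 3 ∧ (can 0 3).val = 4 ∧ (can 0 4).val = 5 ∧
    (can 0 5).val = 0 := by decide
  have e1 : (can 1 1).val = 2 ∧ (can 1 2).val = 3 ∧ (can 1 3).val = 0 ∧ (can 1 4).val = 5 ∧
    (can 1 5).val = 4 := by decide
  have e2 : (can 2 1).val = 2 ∧ (can 2 2).val = 0 ∧ (can 2 3).val = 4 ∧ (can 2 4).val = 5 ∧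
    (can 2 5).val = 3 := by decide
  have e3 : (can 3 1).val = 0 ∧ (can 3 2).val = 3 ∧ (can 3 3).val = 2 ∧ (can 3 4).val = 5 ∧
    (can 3 5).val = 4 := by decide
  fin_cases j
  · obtain ⟨a, b, c, d, e⟩ := e0
    simp only [Fin.zero_eta, a, b, c, d, e]; exact chk6
  · obtain ⟨a, b, c, d, e⟩ := e1
    simp only [Fin.mk_one, a, b, c, d, e]; exact chk42
  · obtain ⟨a, b, c, d, e⟩ := e2
    simp only [Fin.reduceFinMk, a, b, c, d, e]; exact chk33
  · obtain ⟨a, b, c, d, e⟩ := e3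
    simp only [Fin.reduceFinMk, a, b, c, d, e]; exact chk222

theorem can_zero (j : Fin 4) : can j 0 = 1 := by
  have : ∀ j, can j 0 = 1 := by decide
  exact this j

/-- the normalised form -/
theorem normal (L : Fin 6 → Fin 6 → Fin 6) (t : Fin 6 → Fin 6 → Fin 6) (j : Fin 4)
    (hr : ∀ i, Injective (L i)) (hc : ∀ c, Injective fun i => L i c)
    (h0 : ∀ c, L 0 c = c) (h0' : ∀ i, L i 0 = i) (h1 : ∀ c, L 1 c = can j c)
    (t0 : ∀ k, t k 0 = k) (tcol : ∀ k, Injective (t k))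
    (tsym : ∀ k i i', i ≠ i' → L i (t k i) ≠ L i' (t k i'))
    (tdis : ∀ k k' i, k ≠ k' → t k i ≠ t k' i) : False := by
  have hm : Mate (fun i c => (L (fi i) (fi c)).val) (fun k i => (t (fi k) (fi i)).val) := by
    refine ⟨?_, ?_, ?_, ?_, ?_, ?_, ?_, ?_, ?_, ?_⟩
    · intro i c _ _
      exact (L (fi i) (fi c)).2
    · intro i c c' _ hc hc' h
      exact fi_inj hc hc' (hr _ (Fin.ext h))
    · intro i i' c hi hi' _ h
      exact fi_inj hi hi' (hc (fi c) (Fin.ext h))
    · intro c hc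
      show (L 0 (fi c)).val = c
      rw [h0, val_fi hc]
    · intro i hi
      show (L (fi i) 0).val = i
      rw [h0', val_fi hi]
    · intro k i _ _
      exact (t (fi k) (fi i)).2
    · intro k hk
      show (t (fi k) 0).val = k
      rw [t0, val_fi hk]
    · intro k i i' _ hi hi' hne h
      exact hne (fi_inj hi hi' (tcol _ (Fin.ext h)))
    · intro k i i' _ hi hi' hne h
      simp only [fi_val] at h
      exact tsym (fi k) (fi i) (fi i') (fun e => hne (fi_inj hi hi' e)) (Fin.ext h)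
    · intro k k' i hk hk' _ hne h
      exact tdis (fi k) (fi k') (fi i) (fun e => hne (fi_inj hk hk' e)) (Fin.ext h)
  refine hm.false ?_
  have e : ∀ c : ℕ, (L (fi 1) (fi c)).val = (can j (fi c)).val := fun c => by
    show (L 1 (fi c)).val = _
    rw [h1]
  simp only [e]
  exact can_chk j

/-- **Tarry's theorem**: there is no pair of orthogonal latin squares of order six. -/
theorem tarry (L M : Fin 6 → Fin 6 → Fin 6) (hLr : ∀ i, Injective (L i))
    (hLc : ∀ c, Injective fun i => L i c) (hMr : ∀ i, Injective (M i))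
    (hMc : ∀ c, Injective fun i => M i c)
    (hO : ∀ i c i' c', L i c = L i' c' → M i c = M i' c' → i = i' ∧ c = c') : False := by
  -- the rows as permutations
  let σ : Fin 6 → Perm (Fin 6) := fun i => Equiv.ofBijective (L i)
    ((Finite.injective_iff_bijective).1 (hLr i))
  have hσ : ∀ i c, σ i c = L i c := fun i c => rfl
  let τ : Perm (Fin 6) := (σ 0)⁻¹ * σ 1
  have hτ : ∀ x, τ x ≠ x := by
    intro x hx
    have h1 : (σ 0)⁻¹ (σ 1 x) = x := hx
    have h2 : σ 1 x = σ 0 x := by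
      rw [Equiv.Perm.inv_eq_iff_eq] at h1
      exact h1
    have h3 : (1 : Fin 6) = 0 := hLc x h2
    exact absurd h3 (by decide)
  obtain ⟨j, π, hπ⟩ := exists_conj τ hτ
  -- the square after relabelling
  let L' : Fin 6 → Fin 6 → Fin 6 := fun i c => π ((σ 0)⁻¹ (L i (π⁻¹ c)))
  have hL'0 : ∀ c, L' 0 c = c := by
    intro c
    show π ((σ 0)⁻¹ (σ 0 (π⁻¹ c))) = c
    simp
  have hL'1 : ∀ c, L' 1 c = can j c := by
    intro c
    rw [← hπ]
    rfl
  have hL'r : ∀ i, Injective (L' i) := by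
    intro i c c' h
    exact π⁻¹.injective (hLr i ((σ 0)⁻¹.injective (π.injective h)))
  have hL'c : ∀ c, Injective fun i => L' i c := by
    intro c i i' h
    exact hLc (π⁻¹ c) ((σ 0)⁻¹.injective (π.injective h))
  -- the order of the rows
  let κ : Perm (Fin 6) := Equiv.ofBijective (fun i => L' i 0)
    ((Finite.injective_iff_bijective).1 (hL'c 0))
  have hκ : ∀ i, κ i = L' i 0 := fun i => rfl
  have hκ0 : κ⁻¹ 0 = 0 := by
    rw [Equiv.Perm.inv_eq_iff_eq, hκ, hL'0]
  have hκ1 : κ⁻¹ 1 = 1 := by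
    rw [Equiv.Perm.inv_eq_iff_eq, hκ, hL'1, can_zero]
  -- the rows of `M`
  have hM' : ∀ i, Injective (fun c => M (κ⁻¹ i) (π⁻¹ c)) := fun i c c' h =>
    π⁻¹.injective (hMr _ h)
  let μ : Fin 6 → Perm (Fin 6) := fun i => Equiv.ofBijective (fun c => M (κ⁻¹ i) (π⁻¹ c))
    ((Finite.injective_iff_bijective).1 (hM' i))
  have hμ : ∀ i c, μ i c = M (κ⁻¹ i) (π⁻¹ c) := fun i c => rfl
  let t : Fin 6 → Fin 6 → Fin 6 := fun k i => (μ i)⁻¹ (μ 0 k)
  have ht : ∀ k i, M (κ⁻¹ i) (π⁻¹ (t k i)) = μ 0 k := by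
    intro k i
    rw [← hμ]
    simp [t]
  refine normal (fun i c => L' (κ⁻¹ i) c) t j (fun i => hL'r _) ?_ ?_ ?_ ?_ ?_ ?_ ?_ ?_
  · intro c i i' h
    exact κ⁻¹.injective (hL'c c h)
  · intro c
    show L' (κ⁻¹ 0) c = c
    rw [hκ0, hL'0]
  · intro i
    show L' (κ⁻¹ i) 0 = i
    rw [← hκ]
    simp
  · intro c
    show L' (κ⁻¹ 1) c = _
    rw [hκ1, hL'1]
  · intro k
    simp [t]
  · intro k i i' h
    have h1 := ht k i
    have h2 := ht k i'
    rw [← h2, h] at h1
    exact κ⁻¹.injective (hMc _ h1)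
  · intro k i i' hne h
    have h1 : L (κ⁻¹ i) (π⁻¹ (t k i)) = L (κ⁻¹ i') (π⁻¹ (t k i')) :=
      (σ 0)⁻¹.injective (π.injective h)
    have h2 := (ht k i).trans (ht k i').symm
    exact hne (κ⁻¹.injective (hO _ _ _ _ h1 h2).1)
  · intro k k' i hne h
    have h1 := ht k i
    have h2 := ht k' i
    rw [h, h2] at h1
    exact hne ((μ 0).injective h1.symm)

end Pool.Agent.TH302.Tarry
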