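import Pool.Agent.H430R2.PermCubes.Upper
import Pool.Agent.TH302.Tarry.Main

set_option autoImplicit false

/-!
# At most `m + 1` cubes of dimension `m` and order six, for every `m ≥ 2`
-/

namespace Pool.Agent.TH302.Tarry

open Function Pool.Agent.H430R2.PermCubes

variable {m k : ℕ} {C : Fin k → (Fin m → Fin 6) → Fin 6}

/-- **At most `m + 1` cubes of order six**, for every dimension `m ≥ 2`. -/
theorem le_of_array (h : IsArray m 6 k C) (hm : 2 ≤ m) : k ≤ m + 1 := by
  classical
  by_contra hcon
  push Not at hcon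
  obtain ⟨W, -, hW⟩ := Finset.exists_subset_card_eq
    (show 4 ≤ (Finset.univ : Finset (Fin k)).card by simp; omega)
  obtain ⟨U, hUW, hU⟩ := Finset.exists_subset_card_eq
    (show m - 2 ≤ (Wᶜ : Finset (Fin k)).card by
      rw [Finset.card_compl, Fintype.card_fin, hW]; omega)
  obtain ⟨a, b, c, d, hab, hac, had, hbc, hbd, hcd, rfl⟩ : ∃ a b c d : Fin k, a ≠ b ∧ a ≠ c ∧
      a ≠ d ∧ b ≠ c ∧ b ≠ d ∧ c ≠ d ∧ W = {a, b, c, d} := by
    obtain ⟨a, W3, ha, rfl, h3⟩ := Finset.card_eq_succ.1 hW
    obtain ⟨b, c, d, hbc, hbd, hcd, rfl⟩ := Finset.card_eq_three.1 h3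
    simp only [Finset.mem_insert, Finset.mem_singleton, not_or] at ha
    exact ⟨a, b, c, d, ha.1, ha.2.1, ha.2.2, hbc, hbd, hcd, rfl⟩
  have hnot : ∀ e ∈ ({a, b, c, d} : Finset (Fin k)), e ∉ U := by
    intro e he heU
    exact (Finset.mem_compl.1 (hUW heU)) he
  have haU := hnot a (by simp)
  have hbU := hnot b (by simp)
  have hcU := hnot c (by simp)
  have hdU := hnot d (by simp)
  let x₀ : Fin m → Fin 6 := fun _ => 0
  -- two points over `x₀` that agree on two of the four cubes are equal
  have key : ∀ (e f : Fin k), e ≠ f → e ∉ U → f ∉ U → ∀ x y : Fin m → Fin 6,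
      (∀ i ∈ U, C i x = C i x₀) → (∀ i ∈ U, C i y = C i x₀) → C e x = C e y → C f x = C f y →
      x = y := by
    intro e f hef he hf x y hx hy h1 h2
    refine h.eq_of_agree (insert e (insert f U)) ?_ ?_
    · rw [Finset.card_insert_of_notMem, Finset.card_insert_of_notMem hf]
      · omega
      · simp [hef, he]
    · intro i hi
      rcases Finset.mem_insert.1 hi with rfl | hi
      · exact h1
      rcases Finset.mem_insert.1 hi with rfl | hi
      · exact h2
      · rw [hx i hi, hy i hi]
  have hex : ∀ r s : Fin 6, ∃ x, C a x = r ∧ C b x = s ∧ ∀ i ∈ U, C i x = C i x₀ := by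
    intro r s
    have hcard : (insert a (insert b U)).card = m := by
      rw [Finset.card_insert_of_notMem, Finset.card_insert_of_notMem hbU]
      · omega
      · simp [hab, haU]
    obtain ⟨x, hx⟩ := h.exists_point _ hcard
      (fun i => if i = a then r else if i = b then s else C i x₀)
    refine ⟨x, by simpa using hx a (by simp), by simpa [hab.symm] using hx b (by simp), ?_⟩
    intro i hi
    have hia : i ≠ a := by rintro rfl; exact haU hi
    have hib : i ≠ b := by rintro rfl; exact hbU hi
    simpa [hia, hib] using hx i (by simp [hi])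
  choose p pa pb pU using hex
  refine tarry (fun r s => C c (p r s)) (fun r s => C d (p r s)) ?_ ?_ ?_ ?_ ?_
  · intro r s s' hs
    have := key a c hac haU hcU (p r s) (p r s') (pU r s) (pU r s') (by rw [pa, pa]) hs
    rw [← pb r s, this, pb]
  · intro s r r' hr
    have := key b c hbc hbU hcU (p r s) (p r' s) (pU r s) (pU r' s) (by rw [pb, pb]) hr
    rw [← pa r s, this, pa]
  · intro r s s' hs
    have := key a d had haU hdU (p r s) (p r s') (pU r s) (pU r s') (by rw [pa, pa]) hs
    rw [← pb r s, this, pb]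
  · intro s r r' hr
    have := key b d hbd hbU hdU (p r s) (p r' s) (pU r s) (pU r' s) (by rw [pb, pb]) hr
    rw [← pa r s, this, pa]
  · intro r s r' s' h1 h2
    have := key c d hcd hcU hdU (p r s) (p r' s') (pU r s) (pU r' s') h1 h2
    exact ⟨by rw [← pa r s, this, pa], by rw [← pb r s, this, pb]⟩

end Pool.Agent.TH302.Tarry
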