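import Mathlib.Data.Nat.Bitwise
import Mathlib.Tactic

set_option autoImplicit false

/-!
# A checker for latin squares of order six without an orthogonal mate

All functions are defined by `List.rec` so that the kernel evaluates them quickly.
-/

namespace Pool.Agent.TH302.Tarry

/-- all members of a list satisfy `p` -/
noncomputable def allR {α : Type} (p : α → Bool) (l : List α) : Bool :=
  List.rec (motive := fun _ => Bool) true (fun a _ ih => bif p a then ih else false) l

/-- all transversal completions satisfy `P` -/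
noncomputable def ext (used : ℕ) (rows : List (List (ℕ × ℕ))) : ℕ → ℕ → (ℕ → Bool) → Bool :=
  List.rec (motive := fun _ => ℕ → ℕ → (ℕ → Bool) → Bool) (fun _ m P => P m)
    (fun row _ ih u m P => allR (fun eb =>
      bif Nat.beq (Nat.land u eb.1) 0 then
        bif Nat.beq (Nat.land used eb.2) 0 then ih (Nat.lor u eb.1) (Nat.lor m eb.2) P else true
      else true) row) rows

/-- there is no partition into transversals -/
noncomputable def noCover (rows : List (List (ℕ × ℕ))) (firsts : List (ℕ × ℕ)) : ℕ → Bool :=
  List.rec (motive := fun _ => ℕ → Bool) (fun _ => false)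
    (fun eb _ ih used => ext used rows eb.1 eb.2 fun m => ih (Nat.lor used m)) firsts

/-- data of one row, from column `c` on -/
def mkRow (i : ℕ) : ℕ → List ℕ → List (ℕ × ℕ)
  | _, [] => []
  | c, s :: l => (Nat.lor (Nat.shiftLeft 1 c) (Nat.shiftLeft 1 (6 + s)),
      Nat.shiftLeft 1 (6 * i + c)) :: mkRow i (c + 1) l

/-- all completions of a row satisfy `P` -/
noncomputable def rowExt (cms : List ℕ) : ℕ → (List ℕ → Bool) → Bool :=
  List.rec (motive := fun _ => ℕ → (List ℕ → Bool) → Bool) (fun _ P => P [])
    (fun cm _ ih u P => allR (fun s =>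
      bif Nat.beq (Nat.land (Nat.lor u cm) (Nat.shiftLeft 1 s)) 0 then
        ih (Nat.lor u (Nat.shiftLeft 1 s)) (fun l => P (s :: l)) else true)
      [0, 1, 2, 3, 4, 5]) cms

/-- column masks after a row -/
def upd : List ℕ → List ℕ → List ℕ
  | cm :: cms, s :: l => Nat.lor cm (Nat.shiftLeft 1 s) :: upd cms l
  | _, _ => []

/-- `k` rows `i, i+1, …` with first entries `i, i+1, …` -/
noncomputable def sq : ℕ → ℕ → List ℕ → List (List (ℕ × ℕ)) → Bool
  | 0, _, _, rows => noCover rows (mkRow 0 0 [0, 1, 2, 3, 4, 5]) 0
  | k + 1, i, cms, rows => rowExt cms (Nat.shiftLeft 1 i) fun l =>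
      sq k (i + 1) (upd cms l) (rows ++ [mkRow i 0 (i :: l)])

/-- the check for the second row `1 :: l` -/
noncomputable def chk (l : List ℕ) : Bool :=
  sq 4 2 (upd [2, 4, 8, 16, 32] l) [mkRow 1 0 (1 :: l)]

end Pool.Agent.TH302.Tarry
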