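import Pool.Agent.TH302.Tarry.Check

set_option autoImplicit false

/-!
# Soundness of the checker
-/

namespace Pool.Agent.TH302.Tarry

theorem land_lor (a b c : ℕ) : Nat.land (Nat.lor a b) c = 0 ↔ Nat.land a c = 0 ∧ Nat.land b c = 0 := by
  have : (a ||| b) &&& c = 0 ↔ a &&& c = 0 ∧ b &&& c = 0 := by
    rw [Nat.and_comm, Nat.and_or_distrib_left]
    constructor
    · intro h
      have h1 := Nat.or_eq_zero_iff.1 h
      exact ⟨by rw [Nat.and_comm]; exact h1.1, by rw [Nat.and_comm]; exact h1.2⟩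
    · rintro ⟨h1, h2⟩
      rw [Nat.and_comm] at h1 h2
      rw [h1, h2]; rfl
  exact this

theorem land_bt (s t : ℕ) : Nat.land (Nat.shiftLeft 1 s) (Nat.shiftLeft 1 t) = 0 ↔ s ≠ t := by
  have : (1 <<< s) &&& (1 <<< t) = 0 ↔ s ≠ t := by
    constructor
    · rintro h rfl
      rw [Nat.and_self, Nat.shiftLeft_eq] at h
      have := Nat.two_pow_pos s
      omega
    · intro h
      apply Nat.eq_of_testBit_eq
      intro k
      rw [Nat.testBit_and, Nat.zero_testBit, Nat.one_shiftLeft, Nat.one_shiftLeft,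
        Nat.testBit_two_pow, Nat.testBit_two_pow]
      by_cases h1 : s = k
      · have h2 : ¬ t = k := fun h2 => h (h1.trans h2.symm)
        simp [h2]
      · simp [h1]
  exact this

theorem allR_spec {α : Type} {p : α → Bool} {l : List α} (h : allR p l = true) :
    ∀ a ∈ l, p a = true := by
  induction l with
  | nil => simp
  | cons b l ih =>
    have h' : (bif p b then allR p l else false) = true := h
    cases hb : p b with
    | false => rw [hb] at h'; exact absurd h' (by simp)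
    | true =>
      rw [hb] at h'
      intro a ha
      rcases List.mem_cons.1 ha with rfl | ha
      · exact hb
      · exact ih h' a ha

/-- the choices `ch` are disjoint from the used ones and from each other -/
def DisOK (used : ℕ) : ℕ → List (ℕ × ℕ) → Prop
  | _, [] => True
  | u, eb :: ch => Nat.land u eb.1 = 0 ∧ Nat.land used eb.2 = 0 ∧ DisOK used (Nat.lor u eb.1) ch

theorem ext_spec {used : ℕ} {rows : List (List (ℕ × ℕ))} {P : ℕ → Bool} :
    ∀ {u m : ℕ} {ch : List (ℕ × ℕ)}, List.Forall₂ (fun eb row => eb ∈ row) ch rows →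
      DisOK used u ch → ext used rows u m P = true →
      P (ch.foldl (fun m eb => Nat.lor m eb.2) m) = true := by
  induction rows with
  | nil =>
    intro u m ch h1 _ h3
    cases h1
    exact h3
  | cons row rows ih =>
    intro u m ch h1 h2 h3
    cases h1 with
    | cons ha hb =>
      rename_i eb ch
      obtain ⟨d1, d2, d3⟩ := h2
      have h3' : allR (fun eb => bif Nat.beq (Nat.land u eb.1) 0 then
        bif Nat.beq (Nat.land used eb.2) 0 then
          ext used rows (Nat.lor u eb.1) (Nat.lor m eb.2) P else true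
        else true) row = true := h3
      have h4 := allR_spec h3' eb ha
      rw [d1, d2] at h4
      have h5 : ext used rows (Nat.lor u eb.1) (Nat.lor m eb.2) P = true := h4
      have h6 := ih hb d3 h5
      exact h6

theorem disOK_of {used : ℕ} : ∀ {u : ℕ} {ch : List (ℕ × ℕ)},
    (∀ eb ∈ ch, Nat.land u eb.1 = 0 ∧ Nat.land used eb.2 = 0) →
      ch.Pairwise (fun a b => Nat.land a.1 b.1 = 0) → DisOK used u ch := by
  intro u ch
  induction ch generalizing u with
  | nil => intro _ _; trivial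
  | cons eb ch ih =>
    intro h1 h2
    rw [List.pairwise_cons] at h2
    refine ⟨(h1 eb (by simp)).1, (h1 eb (by simp)).2, ih (fun x hx => ⟨?_, (h1 x (by simp [hx])).2⟩)
      h2.2⟩
    rw [land_lor]
    exact ⟨(h1 x (by simp [hx])).1, h2.1 x hx⟩

theorem land_foldl (x : ℕ) : ∀ (ch : List (ℕ × ℕ)) (m : ℕ),
    Nat.land m x = 0 → (∀ eb ∈ ch, Nat.land eb.2 x = 0) →
      Nat.land (ch.foldl (fun m eb => Nat.lor m eb.2) m) x = 0 := by
  intro ch
  induction ch with
  | nil => intro m h _; exact h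
  | cons eb ch ih =>
    intro m h1 h2
    exact ih _ ((land_lor _ _ _).2 ⟨h1, h2 eb (by simp)⟩) (fun e he => h2 e (by simp [he]))

/-- the admissible continuations of a row -/
def Good : List ℕ → ℕ → List ℕ → Prop
  | [], _, [] => True
  | cm :: cms, u, s :: l => s < 6 ∧ Nat.land (Nat.lor u cm) (Nat.shiftLeft 1 s) = 0 ∧
      Good cms (Nat.lor u (Nat.shiftLeft 1 s)) l
  | _, _, _ => False

theorem rowExt_spec : ∀ {cms : List ℕ} {u : ℕ} {l : List ℕ} {P : List ℕ → Bool},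
    Good cms u l → rowExt cms u P = true → P l = true := by
  intro cms
  induction cms with
  | nil =>
    intro u l P h1 h2
    cases l with
    | nil => exact h2
    | cons s l => exact absurd h1 (by simp [Good])
  | cons cm cms ih =>
    intro u l P h1 h2
    cases l with
    | nil => exact absurd h1 (by simp [Good])
    | cons s l =>
      obtain ⟨g1, g2, g3⟩ := h1
      have h2' : allR (fun s =>
        bif Nat.beq (Nat.land (Nat.lor u cm) (Nat.shiftLeft 1 s)) 0 then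
          rowExt cms (Nat.lor u (Nat.shiftLeft 1 s)) (fun l => P (s :: l)) else true)
        [0, 1, 2, 3, 4, 5] = true := h2
      have hs : s ∈ [0, 1, 2, 3, 4, 5] := by
        interval_cases s <;> simp
      have h4 := allR_spec h2' s hs
      rw [g2] at h4
      exact ih g3 (P := fun l => P (s :: l)) h4

theorem good5 {m1 m2 m3 m4 m5 u s1 s2 s3 s4 s5 : ℕ}
    (b : s1 < 6 ∧ s2 < 6 ∧ s3 < 6 ∧ s4 < 6 ∧ s5 < 6)
    (hm : Nat.land m1 (Nat.shiftLeft 1 s1) = 0 ∧ Nat.land m2 (Nat.shiftLeft 1 s2) = 0 ∧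
      Nat.land m3 (Nat.shiftLeft 1 s3) = 0 ∧ Nat.land m4 (Nat.shiftLeft 1 s4) = 0 ∧
      Nat.land m5 (Nat.shiftLeft 1 s5) = 0)
    (hu : Nat.land u (Nat.shiftLeft 1 s1) = 0 ∧ Nat.land u (Nat.shiftLeft 1 s2) = 0 ∧
      Nat.land u (Nat.shiftLeft 1 s3) = 0 ∧ Nat.land u (Nat.shiftLeft 1 s4) = 0 ∧
      Nat.land u (Nat.shiftLeft 1 s5) = 0)
    (hd : s1 ≠ s2 ∧ s1 ≠ s3 ∧ s1 ≠ s4 ∧ s1 ≠ s5 ∧ s2 ≠ s3 ∧ s2 ≠ s4 ∧ s2 ≠ s5 ∧ s3 ≠ s4 ∧
      s3 ≠ s5 ∧ s4 ≠ s5) :
    Good [m1, m2, m3, m4, m5] u [s1, s2, s3, s4, s5] := by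
  obtain ⟨b1, b2, b3, b4, b5⟩ := b
  obtain ⟨p1, p2, p3, p4, p5⟩ := hm
  obtain ⟨q1, q2, q3, q4, q5⟩ := hu
  obtain ⟨d12, d13, d14, d15, d23, d24, d25, d34, d35, d45⟩ := hd
  simp only [Good, land_lor, land_bt]
  exact ⟨b1, ⟨q1, p1⟩, b2, ⟨⟨q2, d12⟩, p2⟩, b3, ⟨⟨⟨q3, d13⟩, d23⟩, p3⟩, b4,
    ⟨⟨⟨⟨q4, d14⟩, d24⟩, d34⟩, p4⟩, b5, ⟨⟨⟨⟨⟨q5, d15⟩, d25⟩, d35⟩, d45⟩, p5⟩, trivial⟩

theorem mem_mkRow (i : ℕ) (g : ℕ → ℕ) {t : ℕ} (ht : t < 6) :
    (Nat.lor (Nat.shiftLeft 1 t) (Nat.shiftLeft 1 (6 + g t)), Nat.shiftLeft 1 (6 * i + t)) ∈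
      mkRow i 0 [g 0, g 1, g 2, g 3, g 4, g 5] := by
  interval_cases t <;> simp [mkRow]

/-- the data of a normalised latin square with six disjoint transversals -/
structure Mate (L t : ℕ → ℕ → ℕ) : Prop where
  lt : ∀ i c, i < 6 → c < 6 → L i c < 6
  row : ∀ i c c', i < 6 → c < 6 → c' < 6 → L i c = L i c' → c = c'
  col : ∀ i i' c, i < 6 → i' < 6 → c < 6 → L i c = L i' c → i = i'
  zero : ∀ c, c < 6 → L 0 c = c
  zero' : ∀ i, i < 6 → L i 0 = i
  tlt : ∀ k i, k < 6 → i < 6 → t k i < 6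
  tzero : ∀ k, k < 6 → t k 0 = k
  tcol : ∀ k i i', k < 6 → i < 6 → i' < 6 → i ≠ i' → t k i ≠ t k i'
  tsym : ∀ k i i', k < 6 → i < 6 → i' < 6 → i ≠ i' → L i (t k i) ≠ L i' (t k i')
  tdis : ∀ k k' i, k < 6 → k' < 6 → i < 6 → k ≠ k' → t k i ≠ t k' i

/-- the entry of the cell of the transversal `k` in row `i` -/
def cell (L t : ℕ → ℕ → ℕ) (k i : ℕ) : ℕ × ℕ :=
  (Nat.lor (Nat.shiftLeft 1 (t k i)) (Nat.shiftLeft 1 (6 + L i (t k i))),
    Nat.shiftLeft 1 (6 * i + t k i))

/-- the used cells do not meet the transversals from `k` on -/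
def Av (t : ℕ → ℕ → ℕ) (used k : ℕ) : Prop :=
  ∀ j i, k ≤ j → j < 6 → i < 6 → Nat.land used (Nat.shiftLeft 1 (6 * i + t j i)) = 0

theorem Mate.cells {L t : ℕ → ℕ → ℕ} (h : Mate L t) {k i i' : ℕ} (hk : k < 6) (hi : i < 6)
    (hi' : i' < 6) (hne : i ≠ i') : Nat.land (cell L t k i).1 (cell L t k i').1 = 0 := by
  simp only [cell]
  rw [land_lor]
  have e1 : ∀ a b c : ℕ, Nat.land a (Nat.lor b c) = 0 ↔ Nat.land b a = 0 ∧ Nat.land c a = 0 := by
    intro a b c
    rw [← land_lor]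
    have : Nat.land a (Nat.lor b c) = Nat.land (Nat.lor b c) a := Nat.and_comm _ _
    rw [this]
  rw [e1, e1, land_bt, land_bt, land_bt, land_bt]
  have a1 := h.tlt k i hk hi
  have a2 := h.tlt k i' hk hi'
  have a3 := h.tcol k i i' hk hi hi' hne
  have a4 := h.tsym k i i' hk hi hi' hne
  exact ⟨⟨by omega, by omega⟩, ⟨by omega, by omega⟩⟩

theorem Mate.step {L t : ℕ → ℕ → ℕ} (h : Mate L t) {k : ℕ} (hk : k < 6) {rows : List (List (ℕ × ℕ))}
    (hrows : rows = [mkRow 1 0 [L 1 0, L 1 1, L 1 2, L 1 3, L 1 4, L 1 5],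
      mkRow 2 0 [L 2 0, L 2 1, L 2 2, L 2 3, L 2 4, L 2 5],
      mkRow 3 0 [L 3 0, L 3 1, L 3 2, L 3 3, L 3 4, L 3 5],
      mkRow 4 0 [L 4 0, L 4 1, L 4 2, L 4 3, L 4 4, L 4 5],
      mkRow 5 0 [L 5 0, L 5 1, L 5 2, L 5 3, L 5 4, L 5 5]]) {rest : List (ℕ × ℕ)}
    (ih : ∀ used, Av t used (k + 1) → ¬ noCover rows rest used = true) :
    ∀ used, Av t used k → ¬ noCover rows (cell L t k 0 :: rest) used = true := by
  intro used hav hno
  have hno' : ext used rows (cell L t k 0).1 (cell L t k 0).2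
    (fun m => noCover rows rest (Nat.lor used m)) = true := hno
  have h1 := ext_spec (ch := [cell L t k 1, cell L t k 2, cell L t k 3, cell L t k 4,
    cell L t k 5]) (by
      rw [hrows]
      refine .cons (mem_mkRow 1 (L 1) (h.tlt k 1 hk (by norm_num)))
        (.cons (mem_mkRow 2 (L 2) (h.tlt k 2 hk (by norm_num)))
        (.cons (mem_mkRow 3 (L 3) (h.tlt k 3 hk (by norm_num)))
        (.cons (mem_mkRow 4 (L 4) (h.tlt k 4 hk (by norm_num)))
        (.cons (mem_mkRow 5 (L 5) (h.tlt k 5 hk (by norm_num))) .nil)))))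
    (disOK_of (by
        intro eb heb
        simp only [List.mem_cons, List.not_mem_nil, or_false] at heb
        rcases heb with rfl | rfl | rfl | rfl | rfl <;>
        exact ⟨h.cells hk (by norm_num) (by norm_num) (by norm_num),
          hav k _ le_rfl hk (by norm_num)⟩)
      (by
        simp only [List.pairwise_cons, List.mem_cons, List.not_mem_nil, or_false,
          List.Pairwise.nil, and_true]
        refine ⟨?_, ?_, ?_, ?_, ?_⟩ <;> intro eb heb
        · rcases heb with rfl | rfl | rfl | rfl <;>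
          exact h.cells hk (by norm_num) (by norm_num) (by norm_num)
        · rcases heb with rfl | rfl | rfl <;>
          exact h.cells hk (by norm_num) (by norm_num) (by norm_num)
        · rcases heb with rfl | rfl <;>
          exact h.cells hk (by norm_num) (by norm_num) (by norm_num)
        · subst heb
          exact h.cells hk (by norm_num) (by norm_num) (by norm_num)
        · exact absurd heb (by simp))) hno'
  refine ih _ ?_ h1
  intro j i hj hj6 hi
  rw [land_lor]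
  refine ⟨hav j i (by omega) hj6 hi, ?_⟩
  have key : ∀ i', i' < 6 → Nat.land (cell L t k i').2 (Nat.shiftLeft 1 (6 * i + t j i)) = 0 := by
    intro i' hi'
    simp only [cell]
    rw [land_bt]
    have a1 := h.tlt k i' hk hi'
    have a2 := h.tlt j i hj6 hi
    intro heq
    have hii : i' = i := by omega
    subst hii
    exact h.tdis k j i' hk hj6 hi (by omega) (by omega)
  refine land_foldl _ _ _ (key 0 (by norm_num)) ?_
  intro eb heb
  simp only [List.mem_cons, List.not_mem_nil, or_false] at heb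
  rcases heb with rfl | rfl | rfl | rfl | rfl <;> exact key _ (by norm_num)

theorem Mate.false {L t : ℕ → ℕ → ℕ} (h : Mate L t)
    (hchk : chk [L 1 1, L 1 2, L 1 3, L 1 4, L 1 5] = true) : False := by
  have one : L 1 0 = 1 := h.zero' 1 (by norm_num)
  -- facts
  have ne : ∀ i c c', i < 6 → c < 6 → c' < 6 → c ≠ c' → L i c ≠ L i c' :=
    fun i c c' h1 h2 h3 h4 h5 => h4 (h.row i c c' h1 h2 h3 h5)
  have ne' : ∀ i i' c, i < 6 → i' < 6 → c < 6 → i ≠ i' → L i c ≠ L i' c :=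
    fun i i' c h1 h2 h3 h4 h5 => h4 (h.col i i' c h1 h2 h3 h5)
  have nez : ∀ i c, i < 6 → c < 6 → 0 ≠ c → i ≠ L i c := fun i c h1 h2 h3 => by
    have := ne i 0 c h1 (by norm_num) h2 h3
    rwa [h.zero' i h1] at this
  have nez' : ∀ i c, i < 6 → c < 6 → 0 ≠ i → c ≠ L i c := fun i c h1 h2 h3 => by
    have := ne' 0 i c (by norm_num) h1 h2 h3
    rwa [h.zero c h2] at this
  have base : sq 4 2 [Nat.lor (Nat.shiftLeft 1 1) (Nat.shiftLeft 1 (L 1 1)),
      Nat.lor (Nat.shiftLeft 1 2) (Nat.shiftLeft 1 (L 1 2)),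
      Nat.lor (Nat.shiftLeft 1 3) (Nat.shiftLeft 1 (L 1 3)),
      Nat.lor (Nat.shiftLeft 1 4) (Nat.shiftLeft 1 (L 1 4)),
      Nat.lor (Nat.shiftLeft 1 5) (Nat.shiftLeft 1 (L 1 5))]
      [mkRow 1 0 (1 :: [L 1 1, L 1 2, L 1 3, L 1 4, L 1 5])] = true := hchk
  have go : ∀ (i k : ℕ) (m : ℕ → ℕ) (rows : List (List (ℕ × ℕ))), i < 6 → 0 < i →
      (∀ c, c < 6 → Nat.land (m c) (Nat.shiftLeft 1 (L i c)) = 0) →
      sq (k + 1) i [m 1, m 2, m 3, m 4, m 5] rows = true →
      sq k (i + 1) [Nat.lor (m 1) (Nat.shiftLeft 1 (L i 1)), Nat.lor (m 2) (Nat.shiftLeft 1 (L i 2)),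
        Nat.lor (m 3) (Nat.shiftLeft 1 (L i 3)), Nat.lor (m 4) (Nat.shiftLeft 1 (L i 4)),
        Nat.lor (m 5) (Nat.shiftLeft 1 (L i 5))]
        (rows ++ [mkRow i 0 [L i 0, L i 1, L i 2, L i 3, L i 4, L i 5]]) = true := by
    intro i k m rows hi h0i hm hs
    have hs' : rowExt [m 1, m 2, m 3, m 4, m 5] (Nat.shiftLeft 1 i) (fun l =>
      sq k (i + 1) (upd [m 1, m 2, m 3, m 4, m 5] l) (rows ++ [mkRow i 0 (i :: l)])) = true := hs
    have hg : Good [m 1, m 2, m 3, m 4, m 5] (Nat.shiftLeft 1 i) [L i 1, L i 2, L i 3, L i 4, L i 5] := by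
      refine good5 ⟨h.lt _ _ hi (by norm_num), h.lt _ _ hi (by norm_num), h.lt _ _ hi (by norm_num),
        h.lt _ _ hi (by norm_num), h.lt _ _ hi (by norm_num)⟩
        ⟨hm 1 (by norm_num), hm 2 (by norm_num), hm 3 (by norm_num), hm 4 (by norm_num),
          hm 5 (by norm_num)⟩ ?_ ?_
      · simp only [land_bt]
        exact ⟨nez i 1 hi (by norm_num) (by norm_num), nez i 2 hi (by norm_num) (by norm_num),
          nez i 3 hi (by norm_num) (by norm_num), nez i 4 hi (by norm_num) (by norm_num),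
          nez i 5 hi (by norm_num) (by norm_num)⟩
      · refine ⟨?_, ?_, ?_, ?_, ?_, ?_, ?_, ?_, ?_, ?_⟩ <;>
        exact ne i _ _ hi (by norm_num) (by norm_num) (by norm_num)
    have := rowExt_spec hg hs'
    rw [h.zero' i hi]
    exact this
  have s2 := go 2 3 (fun c => Nat.lor (Nat.shiftLeft 1 c) (Nat.shiftLeft 1 (L 1 c))) _
    (by norm_num) (by norm_num) (by
      intro c hc
      simp only [land_lor, land_bt]
      exact ⟨nez' 2 c (by norm_num) hc (by norm_num),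
        ne' 1 2 c (by norm_num) (by norm_num) hc (by norm_num)⟩) base
  have s3 := go 3 2 (fun c => Nat.lor (Nat.lor (Nat.shiftLeft 1 c) (Nat.shiftLeft 1 (L 1 c)))
      (Nat.shiftLeft 1 (L 2 c))) _
    (by norm_num) (by norm_num) (by
      intro c hc
      simp only [land_lor, land_bt]
      exact ⟨⟨nez' 3 c (by norm_num) hc (by norm_num),
        ne' 1 3 c (by norm_num) (by norm_num) hc (by norm_num)⟩,
        ne' 2 3 c (by norm_num) (by norm_num) hc (by norm_num)⟩) s2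
  have s4 := go 4 1 (fun c => Nat.lor (Nat.lor (Nat.lor (Nat.shiftLeft 1 c)
      (Nat.shiftLeft 1 (L 1 c))) (Nat.shiftLeft 1 (L 2 c))) (Nat.shiftLeft 1 (L 3 c))) _
    (by norm_num) (by norm_num) (by
      intro c hc
      simp only [land_lor, land_bt]
      exact ⟨⟨⟨nez' 4 c (by norm_num) hc (by norm_num),
        ne' 1 4 c (by norm_num) (by norm_num) hc (by norm_num)⟩,
        ne' 2 4 c (by norm_num) (by norm_num) hc (by norm_num)⟩,
        ne' 3 4 c (by norm_num) (by norm_num) hc (by norm_num)⟩) s3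
  have s5 := go 5 0 (fun c => Nat.lor (Nat.lor (Nat.lor (Nat.lor (Nat.shiftLeft 1 c)
      (Nat.shiftLeft 1 (L 1 c))) (Nat.shiftLeft 1 (L 2 c))) (Nat.shiftLeft 1 (L 3 c)))
      (Nat.shiftLeft 1 (L 4 c))) _
    (by norm_num) (by norm_num) (by
      intro c hc
      simp only [land_lor, land_bt]
      exact ⟨⟨⟨⟨nez' 5 c (by norm_num) hc (by norm_num),
        ne' 1 5 c (by norm_num) (by norm_num) hc (by norm_num)⟩,
        ne' 2 5 c (by norm_num) (by norm_num) hc (by norm_num)⟩,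
        ne' 3 5 c (by norm_num) (by norm_num) hc (by norm_num)⟩,
        ne' 4 5 c (by norm_num) (by norm_num) hc (by norm_num)⟩) s4
  have s6 : noCover [mkRow 1 0 [L 1 0, L 1 1, L 1 2, L 1 3, L 1 4, L 1 5],
      mkRow 2 0 [L 2 0, L 2 1, L 2 2, L 2 3, L 2 4, L 2 5],
      mkRow 3 0 [L 3 0, L 3 1, L 3 2, L 3 3, L 3 4, L 3 5],
      mkRow 4 0 [L 4 0, L 4 1, L 4 2, L 4 3, L 4 4, L 4 5],
      mkRow 5 0 [L 5 0, L 5 1, L 5 2, L 5 3, L 5 4, L 5 5]] (mkRow 0 0 [0, 1, 2, 3, 4, 5]) 0 =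
      true := by
    rw [one]
    exact s5
  have hf : mkRow 0 0 [0, 1, 2, 3, 4, 5] = [cell L t 0 0, cell L t 1 0, cell L t 2 0, cell L t 3 0,
      cell L t 4 0, cell L t 5 0] := by
    simp only [cell, h.tzero 0 (by norm_num), h.tzero 1 (by norm_num), h.tzero 2 (by norm_num),
      h.tzero 3 (by norm_num), h.tzero 4 (by norm_num), h.tzero 5 (by norm_num),
      h.zero 0 (by norm_num), h.zero 1 (by norm_num), h.zero 2 (by norm_num),
      h.zero 3 (by norm_num), h.zero 4 (by norm_num), h.zero 5 (by norm_num)]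
    rfl
  rw [hf] at s6
  refine h.step (k := 0) (by norm_num) rfl (h.step (k := 1) (by norm_num) rfl
    (h.step (k := 2) (by norm_num) rfl (h.step (k := 3) (by norm_num) rfl
    (h.step (k := 4) (by norm_num) rfl (h.step (k := 5) (by norm_num) rfl ?_))))) 0 ?_ s6
  · intro used _ hc
    exact absurd hc (by simp [noCover])
  · intro j i _ _ _
    exact Nat.zero_and _

end Pool.Agent.TH302.Tarry
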